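import Pool.Agent.H1.CM.Targets2

namespace Pool.Agent.H1.CM

namespace DOM

open Polynomial

/-- A quadratic algebra with anisotropic norm form is a domain. -/
lemma dom_of_norm {R : Type} [CommRing R] [IsDomain R] (a b : R)
    (h : ∀ z : QuadraticAlgebra R a b, z.norm = 0 → z = 0) :
    IsDomain (QuadraticAlgebra R a b) := by
  haveI : NoZeroDivisors (QuadraticAlgebra R a b) := ⟨fun {x y} hxy => by
    have h1 : x.norm * y.norm = 0 := by
      rw [← map_mul, hxy, QuadraticAlgebra.norm_zero]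
    rcases mul_eq_zero.mp h1 with h2 | h2
    · exact Or.inl (h x h2)
    · exact Or.inr (h y h2)⟩
  exact NoZeroDivisors.to_isDomain _

/-- Infinite descent. -/
lemma descent {R k : Type} [CommRing R] [IsDomain R] [WfDvdMonoid R] [Field k] (T : R)
    (hT : ¬IsUnit T) (hT0 : T ≠ 0) (ε : R →+* k[X]) (hε : ∀ f, ε f = 0 → T ∣ f) (hεT : ε T = 0)
    (B F : R) (hF : Odd (ε F).natDegree) (u q : R)
    (h : u ^ 2 + T * B * u * q + F * q ^ 2 = 0) : q = 0 := by
  by_contra hq
  have key : ∀ m : ℕ, ∀ u q : R, u ^ 2 + T * B * u * q + F * q ^ 2 = 0 → T ^ m ∣ q := by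
    intro m
    induction m with
    | zero => intro u q _; simp
    | succ m ih =>
      intro u q h
      have h1 : (ε u) ^ 2 + (ε F) * (ε q) ^ 2 = 0 := by
        have := congrArg ε h
        simpa [hεT] using this
      have hq0 : ε q = 0 := by
        by_contra hne
        have hF0 : ε F ≠ 0 := by
          intro h0
          rw [h0] at hF
          simp at hF
        have hdeg : ((ε u) ^ 2).natDegree = (-((ε F) * (ε q) ^ 2)).natDegree := by
          rw [eq_neg_of_add_eq_zero_left h1]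
        rw [natDegree_neg, natDegree_pow, natDegree_mul hF0 (pow_ne_zero 2 hne),
          natDegree_pow] at hdeg
        obtain ⟨r, hr⟩ := hF
        omega
      have hu0 : ε u = 0 := by
        rw [hq0] at h1
        simpa using h1
      obtain ⟨q', rfl⟩ := hε q hq0
      obtain ⟨u', rfl⟩ := hε u hu0
      have h2 : u' ^ 2 + T * B * u' * q' + F * q' ^ 2 = 0 := by
        have : T ^ 2 * (u' ^ 2 + T * B * u' * q' + F * q' ^ 2) = 0 := by
          rw [← h]
          ring
        exact (mul_eq_zero.mp this).resolve_left (pow_ne_zero 2 hT0)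
      rw [pow_succ']
      exact mul_dvd_mul_left T (ih u' q' h2)
  obtain ⟨m, hm⟩ := FiniteMultiplicity.of_not_isUnit hT hq
  exact hm (key (m + 1) u q h)

section Two

variable {k : Type} [Field k]

/-- The inner variable. -/
noncomputable def x : k[X][X] := C X
/-- The outer variable. -/
noncomputable def y : k[X][X] := X

noncomputable def cc : k[X][X] := x ^ 3 + y ^ 3 + x + y
noncomputable def tt : k[X][X] := x * y
noncomputable def bb : k[X][X] := x ^ 5 + y ^ 5
noncomputable def e0 : k[X][X] := x + x ^ 10 + x ^ 3 * y ^ 3 * cc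
noncomputable def e1 : k[X][X] := x ^ 4 * y ^ 4

/-- Setting `x = 0`. -/
noncomputable def εx : k[X][X] →+* k[X] := mapRingHom (evalRingHom 0)
/-- Setting `y = 0`. -/
noncomputable def εy : k[X][X] →+* k[X] := evalRingHom 0

lemma εx_x : εx (x : k[X][X]) = 0 := by simp [εx, x]
lemma εx_y : εx (y : k[X][X]) = X := by simp [εx, y]
lemma εy_x : εy (x : k[X][X]) = X := by simp [εy, x]
lemma εy_y : εy (y : k[X][X]) = 0 := by simp [εy, y]

lemma x_dvd (f : k[X][X]) (h : εx f = 0) : x ∣ f := by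
  unfold x
  rw [C_dvd_iff_dvd_coeff]
  intro i
  rw [X_dvd_iff]
  have := congrArg (fun g => coeff g i) h
  simp only [εx, coe_mapRingHom, coeff_map, coe_evalRingHom, coeff_zero] at this
  rwa [coeff_zero_eq_eval_zero]

lemma y_dvd (f : k[X][X]) (h : εy f = 0) : y ∣ f := by
  unfold y
  rw [X_dvd_iff, coeff_zero_eq_eval_zero]
  exact h

lemma x_ne : (x : k[X][X]) ≠ 0 := by
  unfold x
  exact C_ne_zero.mpr X_ne_zero

lemma y_ne : (y : k[X][X]) ≠ 0 := X_ne_zero

lemma x_nu : ¬IsUnit (x : k[X][X]) := by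
  intro h
  have := h.map εx
  rw [εx_x] at this
  exact not_isUnit_zero this

lemma y_nu : ¬IsUnit (y : k[X][X]) := by
  intro h
  have := h.map εy
  rw [εy_y] at this
  exact not_isUnit_zero this

lemma descx (B F : k[X][X]) (hF : Odd (εx F).natDegree) (u q : k[X][X])
    (h : u ^ 2 + x * B * u * q + F * q ^ 2 = 0) : q = 0 :=
  descent x x_nu x_ne εx x_dvd εx_x B F hF u q h

lemma descy (B F : k[X][X]) (hF : Odd (εy F).natDegree) (u q : k[X][X])
    (h : u ^ 2 + y * B * u * q + F * q ^ 2 = 0) : q = 0 :=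
  descent y y_nu y_ne εy y_dvd εy_y B F hF u q h

abbrev A1 (k : Type) [Field k] : Type := QuadraticAlgebra k[X][X] (-cc) (-tt)

lemma norm1 (z : A1 k) (h : z.norm = 0) : z = 0 := by
  rw [QuadraticAlgebra.norm_def] at h
  have him : z.im = 0 := by
    apply descx (-y) cc _ z.re z.im
    · rw [← h]
      unfold tt
      ring
    · have : εx (cc : k[X][X]) = X ^ 3 + X := by
        simp [cc, εx_x, εx_y]
      rw [this]
      have : (X ^ 3 + X : k[X]).natDegree = 3 := by compute_degree!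
      rw [this]
      decide
  have hre : z.re = 0 := by
    rw [him] at h
    simpa using h
  exact QuadraticAlgebra.ext hre him

instance : IsDomain (A1 k) := dom_of_norm _ _ norm1

abbrev A2 (k : Type) [Field k] : Type := QuadraticAlgebra (A1 k) (-⟨e0, e1⟩) (-⟨bb, 0⟩)

lemma norm2 (h2 : (2 : k) = 0) (z : A2 k) (h : z.norm = 0) : z = 0 := by
  have two : (2 : k[X][X]) = 0 := by
    have : (2 : k[X][X]) = C (C 2) := (map_ofNat ((C : k[X] →+* k[X][X]).comp C) 2).symm
    rw [this, h2, C_0, C_0]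
  rw [QuadraticAlgebra.norm_def] at h
  have him : z.im = 0 := by
    by_contra hne
    have hg : z.im.norm ≠ 0 := fun h0 => hne (norm1 _ h0)
    set g : k[X][X] := z.im.norm with hgdef
    set S : A1 k := z.re * star z.im with hS
    have hst : (z.im * star z.im : A1 k) = ⟨g, 0⟩ := by
      rw [← QuadraticAlgebra.algebraMap_norm_eq_mul_star]
      rfl
    have hz : S * S + (-⟨bb, 0⟩) * S * ⟨g, 0⟩ - (-⟨e0, e1⟩) * ⟨g, 0⟩ * ⟨g, 0⟩ = (0 : A1 k) := by
      rw [← hst, hS]
      linear_combination (star z.im * star z.im) * h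
    have hre := congrArg QuadraticAlgebra.re hz
    have him := congrArg QuadraticAlgebra.im hz
    simp at hre him
    generalize S.re = U at hre him
    generalize S.im = V at hre him
    have hprod : (x * V + y ^ 4 * g) * (y * V + x ^ 4 * g) = 0 := by
      unfold bb tt e1 at him
      linear_combination (-1 : k[X][X]) * him + (U * V + x ^ 4 * y ^ 4 * g ^ 2) * two
    rcases mul_eq_zero.mp hprod with h3 | h3
    · apply hg
      have h4 : (x * U) ^ 2 + x * (-bb) * (x * U) * g + (x ^ 2 * e0 - cc * y ^ 8) * g ^ 2 = 0 := by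
        linear_combination (x ^ 2) * hre + (cc * (x * V - y ^ 4 * g)) * h3
      apply descx (-bb) _ _ _ _ h4
      have : εx (x ^ 2 * e0 - cc * y ^ 8 : k[X][X]) = - (X ^ 11 + X ^ 9) := by
        simp [cc, e0, εx_x, εx_y]
        ring
      rw [this, natDegree_neg]
      have : (X ^ 11 + X ^ 9 : k[X]).natDegree = 11 := by compute_degree!
      rw [this]
      decide
    · apply hg
      have h4 : (y * U) ^ 2 + y * (-bb) * (y * U) * g + (y ^ 2 * e0 - cc * x ^ 8) * g ^ 2 = 0 := by
        linear_combination (y ^ 2) * hre + (cc * (y * V - x ^ 4 * g)) * h3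
      apply descy (-bb) _ _ _ _ h4
      have : εy (y ^ 2 * e0 - cc * x ^ 8 : k[X][X]) = - (X ^ 11 + X ^ 9) := by
        simp [cc, e0, εy_x, εy_y]
        ring
      rw [this, natDegree_neg]
      have : (X ^ 11 + X ^ 9 : k[X]).natDegree = 11 := by compute_degree!
      rw [this]
      decide
  have hre : z.re = 0 := by
    rw [him] at h
    simpa using h
  exact QuadraticAlgebra.ext hre him

end Two

/-- The ring homomorphism from a quadratic algebra. -/
def liftHom {R C : Type} [CommRing R] [CommRing C] (ψ : R →+* C) (a b : R) (u : C)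
    (hu : u ^ 2 = ψ a + ψ b * u) : QuadraticAlgebra R a b →+* C where
  toFun z := ψ z.re + ψ z.im * u
  map_one' := by
    change ψ (1 : R) + ψ (0 : R) * u = 1
    rw [map_one, map_zero, zero_mul, add_zero]
  map_zero' := by
    change ψ (0 : R) + ψ (0 : R) * u = 0
    rw [map_zero, zero_mul, add_zero]
  map_add' z w := by
    rw [QuadraticAlgebra.re_add, QuadraticAlgebra.im_add, map_add, map_add]
    ring
  map_mul' z w := by
    rw [QuadraticAlgebra.re_mul, QuadraticAlgebra.im_mul]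
    simp only [map_add, map_mul]
    linear_combination (-(ψ z.im * ψ w.im)) * hu

lemma liftHom_apply {R C : Type} [CommRing R] [CommRing C] (ψ : R →+* C) (a b : R) (u : C)
    (hu : u ^ 2 = ψ a + ψ b * u) (z : QuadraticAlgebra R a b) :
    liftHom ψ a b u hu z = ψ z.re + ψ z.im * u := rfl

section Model

variable {k C : Type} [Field k] [CommRing C] (ι : k →+* C) (q : Quad C)

/-- Evaluation of polynomials at `(X, Y)`. -/
noncomputable def φ : k[X][X] →+* C := eval₂RingHom (eval₂RingHom ι (q.X : C)) (q.Y : C)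

lemma φ_x : φ ι q x = q.X := by simp [φ, x]
lemma φ_y : φ ι q y = q.Y := by simp [φ, y]
lemma φ_CC (a : k) : φ ι q (Polynomial.C (Polynomial.C a)) = ι a := by simp [φ]

/-- The coefficients. -/
noncomputable def G (t : Fin 4) (p : k[X][X]) : Idx →₀ k :=
  ∑ j ∈ p.support, ∑ i ∈ (p.coeff j).support, Finsupp.single ((i : ℤ), (j : ℤ), t)
    ((p.coeff j).coeff i)

lemma comb_G (t : Fin 4) (p : k[X][X]) : comb ι q.mon (G t p) = φ ι q p * q.e t := by
  unfold G
  rw [comb_sum]
  have h1 : φ ι q p = ∑ j ∈ p.support, (∑ i ∈ (p.coeff j).support,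
      ι ((p.coeff j).coeff i) * (q.X : C) ^ i) * (q.Y : C) ^ j := by
    unfold φ
    rw [coe_eval₂RingHom, eval₂_eq_sum, Polynomial.sum_def]
    refine Finset.sum_congr rfl fun j _ => ?_
    rw [coe_eval₂RingHom, eval₂_eq_sum, Polynomial.sum_def]
  rw [h1, Finset.sum_mul]
  refine Finset.sum_congr rfl fun j _ => ?_
  rw [comb_sum, Finset.sum_mul, Finset.sum_mul]
  refine Finset.sum_congr rfl fun i _ => ?_
  rw [comb_single]
  simp [Quad.mon, mul_assoc]

lemma G_apply (t t' : Fin 4) (p : k[X][X]) (i j : ℕ) :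
    G t p ((i : ℤ), (j : ℤ), t') = if t = t' then (p.coeff j).coeff i else 0 := by
  unfold G
  rw [Finsupp.finset_sum_apply]
  by_cases ht : t = t'
  · subst ht
    rw [if_pos rfl]
    rw [Finset.sum_eq_single j]
    · rw [Finsupp.finset_sum_apply, Finset.sum_eq_single i]
      · rw [Finsupp.single_eq_same]
      · intro i' _ hi'
        rw [Finsupp.single_apply, if_neg]
        intro h
        exact hi' (by simpa using h)
      · intro hi
        rw [Finsupp.single_eq_same]
        simpa using hi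
    · intro j' _ hj'
      rw [Finsupp.finset_sum_apply]
      refine Finset.sum_eq_zero fun i' _ => ?_
      rw [Finsupp.single_apply, if_neg]
      intro h
      have : (j' : ℤ) = j := congrArg (fun s : Idx => s.2.1) h
      exact hj' (by exact_mod_cast this)
    · intro hj
      rw [Finsupp.finset_sum_apply]
      refine Finset.sum_eq_zero fun i' hi' => ?_
      rw [notMem_support_iff] at hj
      rw [hj] at hi'
      simp at hi'
  · rw [if_neg ht]
    refine Finset.sum_eq_zero fun j' _ => ?_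
    rw [Finsupp.finset_sum_apply]
    refine Finset.sum_eq_zero fun i' _ => ?_
    rw [Finsupp.single_apply, if_neg]
    intro h
    exact ht (congrArg (fun s : Idx => s.2.2) h)

lemma indep (hinj : Function.Injective (comb ι q.mon)) (P : Fin 4 → k[X][X])
    (h : ∑ t, φ ι q (P t) * q.e t = 0) : P = 0 := by
  have h1 : (∑ t, G t (P t)) = 0 := by
    apply hinj
    rw [comb_sum, comb_zero, ← h]
    exact Finset.sum_congr rfl fun t _ => comb_G ι q t (P t)
  funext t
  ext j i
  have h2 := DFunLike.congr_fun h1 ((i : ℤ), (j : ℤ), t)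
  rw [Finsupp.finset_sum_apply, Finset.sum_eq_single t] at h2
  · rw [G_apply, if_pos rfl] at h2
    simpa using h2
  · intro t' _ ht'
    rw [G_apply, if_neg ht']
  · intro h
    exact absurd (Finset.mem_univ t) h

end Model

end DOM

theorem dom : T_DOM := by
  intro k C _ _ ι q h2 hbij hrel
  have r1 : q.n ^ 2 = DOM.φ ι q (-DOM.cc) + DOM.φ ι q (-DOM.tt) * q.n := by
    have := hrel.r1
    simp only [Quad.ev, std, cStd, MvPolynomial.eval₂_add, MvPolynomial.eval₂_mul,
      MvPolynomial.eval₂_pow, MvPolynomial.eval₂_X, Quad.vec] at this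
    simp only [DOM.cc, DOM.tt, map_neg, map_add, map_mul, map_pow, DOM.φ_x, DOM.φ_y]
    simp at this
    linear_combination this
  let Φ1 : DOM.A1 k →+* C := DOM.liftHom (DOM.φ ι q) _ _ q.n r1
  have hΦ1 : ∀ z, Φ1 z = DOM.φ ι q z.re + DOM.φ ι q z.im * q.n := fun z => rfl
  have r2 : q.w ^ 2 = Φ1 (-⟨DOM.e0, DOM.e1⟩) + Φ1 (-⟨DOM.bb, 0⟩) * q.w := by
    have := hrel.r2
    simp only [Quad.ev, std, cStd, eStd, MvPolynomial.eval₂_add, MvPolynomial.eval₂_mul,
      MvPolynomial.eval₂_sub,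
      MvPolynomial.eval₂_pow, MvPolynomial.eval₂_X, MvPolynomial.eval₂_C, Quad.vec] at this
    rw [map_neg, map_neg, hΦ1, hΦ1]
    simp only [DOM.bb, DOM.e0, DOM.e1, DOM.cc, map_neg, map_add, map_mul, map_pow, DOM.φ_x,
      DOM.φ_y, map_zero]
    simp at this
    linear_combination this
  let Φ : DOM.A2 k →+* C := DOM.liftHom Φ1 _ _ q.w r2
  have hΦ : ∀ z, Φ z = Φ1 z.re + Φ1 z.im * q.w := fun z => rfl
  have inj : ∀ z, Φ z = 0 → z = 0 := by
    intro z hz
    rw [hΦ, hΦ1, hΦ1] at hz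
    have := DOM.indep ι q hbij.1 ![z.re.re, z.re.im, z.im.re, z.im.im] (by
      rw [Fin.sum_univ_four]
      simp [Quad.e]
      linear_combination hz)
    have a0 := congrFun this 0
    have a1 := congrFun this 1
    have a2 := congrFun this 2
    have a3 := congrFun this 3
    simp at a0 a1 a2 a3
    exact QuadraticAlgebra.ext (QuadraticAlgebra.ext a0 a1) (QuadraticAlgebra.ext a2 a3)
  have hΦc : ∀ p : Polynomial (Polynomial k), Φ ⟨⟨p, 0⟩, ⟨0, 0⟩⟩ = DOM.φ ι q p := by
    intro p
    rw [hΦ, hΦ1, hΦ1]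
    simp
  let XY : Cˣ := q.X * q.Y
  have hXY : ∀ m : ℕ, Φ ⟨⟨(DOM.x * DOM.y) ^ m, 0⟩, ⟨0, 0⟩⟩ = ((XY ^ m : Cˣ) : C) := by
    intro m
    rw [hΦc, map_pow, map_mul, DOM.φ_x, DOM.φ_y, Units.val_pow_eq_pow_val, Units.val_mul]
  have hE : ∀ t : Fin 4, ∃ z, Φ z = q.e t := by
    intro t
    fin_cases t
    · exact ⟨1, by rw [map_one]; simp [Quad.e]⟩
    · exact ⟨⟨⟨0, 1⟩, ⟨0, 0⟩⟩, by rw [hΦ, hΦ1, hΦ1]; simp [Quad.e]⟩
    · exact ⟨⟨⟨0, 0⟩, ⟨1, 0⟩⟩, by rw [hΦ, hΦ1, hΦ1]; simp [Quad.e]⟩
    · exact ⟨⟨⟨0, 0⟩, ⟨0, 1⟩⟩, by rw [hΦ, hΦ1, hΦ1]; simp [Quad.e]⟩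
  have surj : ∀ c : C, ∃ m : ℕ, ∃ z, ((XY ^ m : Cˣ) : C) * c = Φ z := by
    intro c
    obtain ⟨g, rfl⟩ := hbij.2 c
    induction g using Finsupp.induction_linear with
    | zero => exact ⟨0, 0, by rw [comb_zero, mul_zero, map_zero]⟩
    | add f g hf hg =>
      obtain ⟨m, z, hz⟩ := hf
      obtain ⟨m', z', hz'⟩ := hg
      refine ⟨m + m', ⟨⟨(DOM.x * DOM.y) ^ m', 0⟩, ⟨0, 0⟩⟩ * z
        + ⟨⟨(DOM.x * DOM.y) ^ m, 0⟩, ⟨0, 0⟩⟩ * z', ?_⟩
      rw [map_add, map_mul, map_mul, hXY, hXY, ← hz, ← hz', comb_add, pow_add, Units.val_mul]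
      ring
    | single s a =>
      obtain ⟨i, j, t⟩ := s
      obtain ⟨z, hz⟩ := hE t
      refine ⟨i.natAbs + j.natAbs, ⟨⟨Polynomial.C (Polynomial.C a)
        * (DOM.x ^ (i + (i.natAbs + j.natAbs : ℕ)).toNat
        * DOM.y ^ (j + (i.natAbs + j.natAbs : ℕ)).toNat), 0⟩, ⟨0, 0⟩⟩ * z, ?_⟩
      rw [map_mul, hz, hΦc, map_mul, map_mul, map_pow, map_pow, DOM.φ_x, DOM.φ_y, DOM.φ_CC,
        comb_single]
      have e1 : (q.X : C) ^ (i + (i.natAbs + j.natAbs : ℕ)).toNat
          = ((q.X ^ i : Cˣ) : C) * ((q.X ^ (i.natAbs + j.natAbs) : Cˣ) : C) := by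
        rw [← Units.val_pow_eq_pow_val, ← Units.val_mul]
        congr 1
        rw [← zpow_natCast, ← zpow_natCast, ← zpow_add]
        congr 1
        omega
      have e2 : (q.Y : C) ^ (j + (i.natAbs + j.natAbs : ℕ)).toNat
          = ((q.Y ^ j : Cˣ) : C) * ((q.Y ^ (i.natAbs + j.natAbs) : Cˣ) : C) := by
        rw [← Units.val_pow_eq_pow_val, ← Units.val_mul]
        congr 1
        rw [← zpow_natCast, ← zpow_natCast, ← zpow_add]
        congr 1
        omega
      rw [e1, e2]
      simp only [Quad.mon, XY, mul_pow, Units.val_mul]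
      ring
  haveI : Nontrivial C := ⟨⟨0, 1, fun h => by
    have := inj 1 (by rw [map_one, ← h])
    exact one_ne_zero this⟩⟩
  haveI : IsDomain (DOM.A2 k) := DOM.dom_of_norm _ _ (DOM.norm2 h2)
  haveI : NoZeroDivisors C := ⟨fun {c d} hcd => by
    obtain ⟨m, z, hz⟩ := surj c
    obtain ⟨m', z', hz'⟩ := surj d
    have hzz : z * z' = 0 := by
      apply inj
      rw [map_mul, ← hz, ← hz']
      linear_combination (((XY ^ m : Cˣ) : C) * ((XY ^ m' : Cˣ) : C)) * hcd
    rcases mul_eq_zero.mp hzz with h | h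
    · left
      rw [h, map_zero] at hz
      exact (Units.mul_right_eq_zero _).mp hz
    · right
      rw [h, map_zero] at hz'
      exact (Units.mul_right_eq_zero _).mp hz'⟩
  exact NoZeroDivisors.to_isDomain C

end Pool.Agent.H1.CM
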