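import Pool.Agent.H1.CM.Targets1

namespace Pool.Agent.H1.CM

namespace FC

variable {A C : Type} [CommRing A] [CommRing C]

lemma mem_of {ι : A →+* C} {B : Finset (Fin 3) → Subring C} {q : Quad C}
    (hF : Frame ι q.mon B) (r : Fin 3) (s : Idx) (hs : s ∈ reg {r}) : q.mon s ∈ B {r} := by
  rw [hF.mem {r} (Finset.singleton_nonempty r)]
  exact InSpan.of_mem (ι := ι) (β := q.mon) hs

lemma reg_iff (r : Fin 3) (i j : ℤ) (t : Fin 4) :
    ((i, j, t) : Idx) ∈ reg {r} ↔ ((0 ≠ r → 0 ≤ i) ∧ (1 ≠ r → 0 ≤ j) ∧ (2 ≠ r → 0 ≤ -i - j - dg t)) := by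
  constructor
  · intro h
    refine ⟨fun h0 => ?_, fun h0 => ?_, fun h0 => ?_⟩
    · simpa [expo] using h 0 (by simpa using h0)
    · simpa [expo] using h 1 (by simpa using h0)
    · have := h 2 (by simpa using h0)
      simpa [expo] using this
  · rintro ⟨h0, h1, h2⟩ t' ht'
    rw [Finset.mem_singleton] at ht'
    fin_cases t'
    · simpa [expo] using h0 ht'
    · simpa [expo] using h1 ht'
    · simpa [expo] using h2 ht'

end FC

theorem fc : T_FC := by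
  intro A C _ _ ι B q hF
  have key : ∀ (r : Fin 3) (i j : ℤ) (t : Fin 4) (c : C), ((i, j, t) : Idx) ∈ reg {r} →
      q.mon (i, j, t) = c → c ∈ B {r} := by
    intro r i j t c h1 h2
    rw [← h2]
    exact FC.mem_of hF r _ h1
  refine ⟨⟨?_, ?_, ?_, ?_⟩, ⟨?_, ?_, ?_, ?_⟩, ⟨?_, ?_, ?_, ?_⟩⟩
  · exact key 2 1 0 0 _ (by rw [FC.reg_iff]; simp [dg]) q.mon_X
  · exact key 2 0 1 0 _ (by rw [FC.reg_iff]; simp [dg]) q.mon_Y
  · exact key 2 0 0 1 _ (by rw [FC.reg_iff]; simp [dg]) q.mon_n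
  · exact key 2 0 0 2 _ (by rw [FC.reg_iff]; simp [dg]) q.mon_w
  · exact key 0 (-1) 0 0 _ (by rw [FC.reg_iff]; simp [dg]) (by simp [Quad.mon, Quad.e])
  · exact key 0 (-1) 1 0 _ (by rw [FC.reg_iff]; simp [dg]) (by simp [Quad.mon, Quad.e, mul_comm])
  · refine key 0 (-2) 0 1 _ (by rw [FC.reg_iff]; simp [dg]) ?_
    simp only [Quad.mon, Quad.e, zpow_zero, Units.val_one, mul_one]
    rw [show (-2 : ℤ) = -((2 : ℕ) : ℤ) by norm_num, zpow_neg, zpow_natCast, ← inv_pow, Units.val_pow_eq_pow_val]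
    simp [mul_comm]
  · refine key 0 (-5) 0 2 _ (by rw [FC.reg_iff]; simp [dg]) ?_
    simp only [Quad.mon, Quad.e, zpow_zero, Units.val_one, mul_one]
    rw [show (-5 : ℤ) = -((5 : ℕ) : ℤ) by norm_num, zpow_neg, zpow_natCast, ← inv_pow, Units.val_pow_eq_pow_val]
    simp [mul_comm]
  · exact key 1 0 (-1) 0 _ (by rw [FC.reg_iff]; simp [dg]) (by simp [Quad.mon, Quad.e])
  · exact key 1 1 (-1) 0 _ (by rw [FC.reg_iff]; simp [dg]) (by simp [Quad.mon, Quad.e])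
  · refine key 1 0 (-2) 1 _ (by rw [FC.reg_iff]; simp [dg]) ?_
    simp only [Quad.mon, Quad.e, zpow_zero, Units.val_one, one_mul]
    rw [show (-2 : ℤ) = -((2 : ℕ) : ℤ) by norm_num, zpow_neg, zpow_natCast, ← inv_pow, Units.val_pow_eq_pow_val]
    simp [mul_comm]
  · refine key 1 0 (-5) 2 _ (by rw [FC.reg_iff]; simp [dg]) ?_
    simp only [Quad.mon, Quad.e, zpow_zero, Units.val_one, one_mul]
    rw [show (-5 : ℤ) = -((5 : ℕ) : ℤ) by norm_num, zpow_neg, zpow_natCast, ← inv_pow, Units.val_pow_eq_pow_val]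
    simp [mul_comm]

end Pool.Agent.H1.CM
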