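import Pool.Agent.H1.CM.Targets1

namespace Pool.Agent.H1.CM

namespace FORM

variable {A C : Type} [CommRing A] [CommRing C]

lemma expo0 (i j : ℤ) (t : Fin 4) : expo (i, j, t) 0 = i := rfl
lemma expo1 (i j : ℤ) (t : Fin 4) : expo (i, j, t) 1 = j := rfl
lemma expo2 (i j : ℤ) (t : Fin 4) : expo (i, j, t) 2 = -i - j - dg t := rfl

lemma mem_regd (d : ℤ) (i j : ℤ) (t : Fin 4) :
    ((i, j, t) : Idx) ∈ regd d ∅ ↔ 0 ≤ i ∧ 0 ≤ j ∧ 0 ≤ -i - j - dg t + d := by
  constructor
  · intro h
    refine ⟨?_, ?_, ?_⟩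
    · simpa [expo0] using h 0 (by simp)
    · simpa [expo1] using h 1 (by simp)
    · simpa [expo2] using h 2 (by simp)
  · rintro ⟨h0, h1, h2⟩ r _
    fin_cases r
    · simpa [expo0] using h0
    · simpa [expo1] using h1
    · simpa [expo2] using h2

lemma dg_eq (t : Fin 4) : dg t = (dgN t : ℤ) := by
  fin_cases t <;> rfl

lemma ev_term (ι : A →+* C) (q : Quad C) (m : Fin 3 →₀ ℕ) (a : A) :
    q.ev ι (MvPolynomial.monomial m a)
      = ι a * (((q.X ^ ((m 0 : ℕ) : ℤ) : Cˣ) : C) * ((q.Y ^ ((m 1 : ℕ) : ℤ) : Cˣ) : C)) := by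
  unfold Quad.ev
  rw [MvPolynomial.eval₂_monomial, Finsupp.prod_fintype _ _ (by simp), Fin.prod_univ_three]
  simp [Quad.vec]

lemma ev_add (ι : A →+* C) (q : Quad C) (p p' : MvPolynomial (Fin 3) A) :
    q.ev ι (p + p') = q.ev ι p + q.ev ι p' := MvPolynomial.eval₂_add _ _

lemma ev_zero (ι : A →+* C) (q : Quad C) :
    q.ev ι (0 : MvPolynomial (Fin 3) A) = 0 := MvPolynomial.eval₂_zero _ _

lemma ev4_add (ι : A →+* C) (q : Quad C) (P P' : Fin 4 → MvPolynomial (Fin 3) A) :
    ev4 ι q (P + P') = ev4 ι q P + ev4 ι q P' := by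
  unfold ev4
  rw [← Finset.sum_add_distrib]
  exact Finset.sum_congr rfl fun t _ => by rw [Pi.add_apply, ev_add, add_mul]

lemma ev4_zero (ι : A →+* C) (q : Quad C) :
    ev4 ι q (0 : Fin 4 → MvPolynomial (Fin 3) A) = 0 := by
  unfold ev4
  exact Finset.sum_eq_zero fun t _ => by rw [Pi.zero_apply, ev_zero, zero_mul]

lemma ev4_single (ι : A →+* C) (q : Quad C) (t : Fin 4) (p : MvPolynomial (Fin 3) A) :
    ev4 ι q (Pi.single t p) = q.ev ι p * q.e t := by
  unfold ev4
  rw [Finset.sum_eq_single t]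
  · rw [Pi.single_eq_same]
  · intro b _ hb
    rw [Pi.single_eq_of_ne hb, ev_zero, zero_mul]
  · intro h
    exact absurd (Finset.mem_univ t) h

lemma forms_add {d : ℕ} {P P' : Fin 4 → MvPolynomial (Fin 3) A} (h : Forms4 d P)
    (h' : Forms4 d P') : Forms4 d (P + P') where
  hom t ht := (h.hom t ht).add (h'.hom t ht)
  zero t ht := by rw [Pi.add_apply, h.zero t ht, h'.zero t ht, add_zero]

lemma forms_zero (d : ℕ) : Forms4 d (0 : Fin 4 → MvPolynomial (Fin 3) A) where
  hom t _ := MvPolynomial.isHomogeneous_zero _ _ _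
  zero t _ := rfl

lemma forms_single {d : ℕ} {t : Fin 4} (ht : dgN t ≤ d) {p : MvPolynomial (Fin 3) A}
    (hp : p.IsHomogeneous (d - dgN t)) : Forms4 d (Pi.single t p : Fin 4 → _) where
  hom t' _ := by
    by_cases h : t' = t
    · subst h
      rw [Pi.single_eq_same]
      exact hp
    · rw [Pi.single_eq_of_ne h]
      exact MvPolynomial.isHomogeneous_zero _ _ _
  zero t' h' := by
    have : t' ≠ t := by
      rintro rfl
      omega
    rw [Pi.single_eq_of_ne this]

lemma term_form (ι : A →+* C) (q : Quad C) (d : ℕ) (s : Idx) (hs : s ∈ regd d ∅) (a : A) :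
    ∃ P : Fin 4 → MvPolynomial (Fin 3) A, Forms4 d P ∧ ι a * q.mon s = ev4 ι q P := by
  obtain ⟨i, j, t⟩ := s
  rw [mem_regd, dg_eq] at hs
  obtain ⟨hi, hj, hk⟩ := hs
  obtain ⟨i', rfl⟩ := Int.eq_ofNat_of_zero_le hi
  obtain ⟨j', rfl⟩ := Int.eq_ofNat_of_zero_le hj
  have ht : dgN t ≤ d := by omega
  refine ⟨Pi.single t (MvPolynomial.monomial
    (Finsupp.equivFunOnFinite.symm ![i', j', d - dgN t - i' - j']) a),
    forms_single ht ?_, ?_⟩
  · apply MvPolynomial.isHomogeneous_monomial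
    rw [Finsupp.degree_eq_sum, Fin.sum_univ_three]
    simp
    omega
  · rw [ev4_single, ev_term]
    simp [Quad.mon, mul_assoc]

end FORM

theorem form : T_FORM := by
  intro A C _ _ ι q d c
  constructor
  · rintro ⟨g, hg, rfl⟩
    classical
    induction g using Finsupp.induction with
    | zero => exact ⟨0, FORM.forms_zero d, by rw [comb_zero, FORM.ev4_zero]⟩
    | single_add s a g hs ha ih =>
      have hsupp : ∀ s' ∈ g.support, s' ∈ regd d ∅ := fun s' hs' => hg s' (by
        rw [Finsupp.support_single_add hs ha]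
        exact Finset.mem_cons_of_mem hs')
      obtain ⟨P, hP, hP'⟩ := ih hsupp
      obtain ⟨Q, hQ, hQ'⟩ := FORM.term_form ι q d s (hg s (by
        rw [Finsupp.support_single_add hs ha]
        exact Finset.mem_cons_self _ _)) a
      exact ⟨Q + P, FORM.forms_add hQ hP, by
        rw [comb_add, comb_single, hP', hQ', FORM.ev4_add]⟩
  · rintro ⟨P, hP, rfl⟩
    unfold ev4
    refine InSpan.sum _ fun t _ => ?_
    by_cases ht : dgN t ≤ d
    · have hh := hP.hom t ht
      rw [MvPolynomial.as_sum (P t)]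
      have hsum : q.ev ι (∑ m ∈ (P t).support, MvPolynomial.monomial m ((P t).coeff m))
          = ∑ m ∈ (P t).support, q.ev ι (MvPolynomial.monomial m ((P t).coeff m)) :=
        MvPolynomial.eval₂_sum _ _ _ _
      rw [hsum, Finset.sum_mul]
      refine InSpan.sum _ fun m hm => ?_
      have hdeg : m.degree = d - dgN t := by
        by_contra hne
        exact (MvPolynomial.mem_support_iff.mp hm) (hh.coeff_eq_zero hne)
      rw [Finsupp.degree_eq_sum, Fin.sum_univ_three] at hdeg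
      rw [FORM.ev_term]
      have hmem : (((m 0 : ℕ) : ℤ), ((m 1 : ℕ) : ℤ), t) ∈ regd (d : ℤ) ∅ := by
        rw [FORM.mem_regd, FORM.dg_eq]
        refine ⟨by positivity, by positivity, ?_⟩
        omega
      have := (InSpan.of_mem (ι := ι) (β := q.mon) hmem).smul ((P t).coeff m)
      rw [mul_assoc]
      exact this
    · rw [hP.zero t (by omega), FORM.ev_zero, zero_mul]
      exact InSpan.zero _ _ _

end Pool.Agent.H1.CM
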