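import Pool.Agent.H1.CM.Targets1

namespace Pool.Agent.H1.CM

namespace H0

variable {A C : Type} [CommRing A] [CommRing C]

lemma inter {ι : A →+* C} {β : Idx → C} (hinj : Function.Injective (comb ι β))
    {R R' : Set Idx} {c : C} (h : InSpan ι β R c) (h' : InSpan ι β R' c) :
    InSpan ι β (R ∩ R') c := by
  obtain ⟨g, hg, rfl⟩ := h
  obtain ⟨g', hg', he⟩ := h'
  have : g = g' := hinj he
  subst this
  exact ⟨g, fun s hs => ⟨hg s hs, hg' s hs⟩, rfl⟩

lemma inv_pow_eq (u : Cˣ) (d : ℕ) : ((u⁻¹ : Cˣ) : C) ^ d = ((u ^ (-(d : ℤ)) : Cˣ) : C) := by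
  rw [zpow_neg, zpow_natCast, ← inv_pow, Units.val_pow_eq_pow_val]

lemma expo0 (i j : ℤ) (t : Fin 4) : expo (i, j, t) 0 = i := rfl
lemma expo1 (i j : ℤ) (t : Fin 4) : expo (i, j, t) 1 = j := rfl
lemma expo2 (i j : ℤ) (t : Fin 4) : expo (i, j, t) 2 = -i - j - dg t := rfl

lemma mem_regd (d : ℤ) (i j : ℤ) (t : Fin 4) :
    ((i, j, t) : Idx) ∈ regd d ∅ ↔ 0 ≤ i ∧ 0 ≤ j ∧ 0 ≤ -i - j - dg t + d := by
  constructor
  · intro h
    refine ⟨?_, ?_, ?_⟩
    · simpa [expo0] using h 0 (by simp)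
    · simpa [expo1] using h 1 (by simp)
    · simpa [expo2] using h 2 (by simp)
  · rintro ⟨h0, h1, h2⟩ r _
    fin_cases r
    · simpa [expo0] using h0
    · simpa [expo1] using h1
    · simpa [expo2] using h2

lemma mem_reg (r : Fin 3) (i j : ℤ) (t : Fin 4) :
    ((i, j, t) : Idx) ∈ reg {r} ↔
      ((0 ≠ r → 0 ≤ i) ∧ (1 ≠ r → 0 ≤ j) ∧ (2 ≠ r → 0 ≤ -i - j - dg t)) := by
  constructor
  · intro h
    refine ⟨fun h0 => ?_, fun h0 => ?_, fun h0 => ?_⟩
    · simpa [expo] using h 0 (by simpa using h0)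
    · simpa [expo] using h 1 (by simpa using h0)
    · have := h 2 (by simpa using h0)
      simpa [expo] using this
  · rintro ⟨h0, h1, h2⟩ t' ht'
    rw [Finset.mem_singleton] at ht'
    fin_cases t'
    · simpa [expo] using h0 ht'
    · simpa [expo] using h1 ht'
    · simpa [expo] using h2 ht'

end H0

theorem h0 : T_H0 := by
  intro A C _ _ ι B q hF _ d c
  have hB : ∀ r : Fin 3, ∀ x : C, x ∈ B {r} ↔ InSpan ι q.mon (reg {r}) x := fun r x =>
    hF.mem {r} (Finset.singleton_nonempty r) x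
  rw [hB, hB, hB, H0.inv_pow_eq, H0.inv_pow_eq]
  constructor
  · intro h
    refine ⟨h.mono ?_, ?_, ?_⟩
    · rintro ⟨i, j, t⟩ hs
      rw [H0.mem_regd] at hs
      rw [H0.mem_reg]
      exact ⟨fun _ => hs.1, fun _ => hs.2.1, fun h2 => absurd rfl h2⟩
    · have h1 := h.shift (R' := reg {0}) (-(d : ℤ)) 0 (by
        rintro ⟨i, j, t⟩ hs
        rw [H0.mem_regd] at hs
        rw [H0.mem_reg]
        refine ⟨fun h2 => absurd rfl h2, fun _ => ?_, fun _ => ?_⟩
        · simpa using hs.2.1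
        · have := hs.2.2
          simp only
          omega)
      simpa [mul_comm] using h1
    · have h1 := h.shift (R' := reg {1}) 0 (-(d : ℤ)) (by
        rintro ⟨i, j, t⟩ hs
        rw [H0.mem_regd] at hs
        rw [H0.mem_reg]
        refine ⟨fun _ => ?_, fun h2 => absurd rfl h2, fun _ => ?_⟩
        · simpa using hs.1
        · have := hs.2.2
          simp only
          omega)
      simpa [mul_comm] using h1
  · rintro ⟨h2, h0, h1⟩
    have k0 := h0.shift (R' := {s : Idx | 0 ≤ s.2.1 ∧ 0 ≤ -s.1 - s.2.1 - dg s.2.2 + d}) (d : ℤ) 0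
      (by
        rintro ⟨i, j, t⟩ hs
        rw [H0.mem_reg] at hs
        refine ⟨?_, ?_⟩
        · have := hs.2.1 (by decide)
          simp only
          omega
        · have := hs.2.2 (by decide)
          simp only
          omega)
    have k1 := h1.shift (R' := {s : Idx | 0 ≤ s.1 ∧ 0 ≤ -s.1 - s.2.1 - dg s.2.2 + d}) 0 (d : ℤ)
      (by
        rintro ⟨i, j, t⟩ hs
        rw [H0.mem_reg] at hs
        refine ⟨?_, ?_⟩
        · have := hs.1 (by decide)
          simp only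
          omega
        · have := hs.2.2 (by decide)
          simp only
          omega)
    have e0 : ((q.X ^ (d : ℤ) : Cˣ) : C) * ((q.Y ^ (0 : ℤ) : Cˣ) : C)
        * (c * ((q.X ^ (-(d : ℤ)) : Cˣ) : C)) = c := by
      have : ((q.X ^ (d : ℤ) : Cˣ) : C) * ((q.X ^ (-(d : ℤ)) : Cˣ) : C) = 1 := by
        rw [← Units.val_mul, ← zpow_add]
        simp
      rw [zpow_zero, Units.val_one, mul_one]
      calc _ = c * (((q.X ^ (d : ℤ) : Cˣ) : C) * ((q.X ^ (-(d : ℤ)) : Cˣ) : C)) := by ring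
        _ = c := by rw [this, mul_one]
    have e1 : ((q.X ^ (0 : ℤ) : Cˣ) : C) * ((q.Y ^ (d : ℤ) : Cˣ) : C)
        * (c * ((q.Y ^ (-(d : ℤ)) : Cˣ) : C)) = c := by
      have : ((q.Y ^ (d : ℤ) : Cˣ) : C) * ((q.Y ^ (-(d : ℤ)) : Cˣ) : C) = 1 := by
        rw [← Units.val_mul, ← zpow_add]
        simp
      rw [zpow_zero, Units.val_one, one_mul]
      calc _ = c * (((q.Y ^ (d : ℤ) : Cˣ) : C) * ((q.Y ^ (-(d : ℤ)) : Cˣ) : C)) := by ring
        _ = c := by rw [this, mul_one]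
    rw [e0] at k0
    rw [e1] at k1
    refine (H0.inter hF.bij.injective k0 k1).mono ?_
    rintro ⟨i, j, t⟩ ⟨hs0, hs1⟩
    rw [H0.mem_regd]
    exact ⟨hs1.1, hs0.1, hs0.2⟩

end Pool.Agent.H1.CM
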