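import Pool.Agent.H1.CM.Targets1

namespace Pool.Agent.H1.CM

namespace MEM

variable {C : Type} [CommRing C]

lemma zpow_mem {R : Subring C} (u : Cˣ) (h1 : (u : C) ∈ R) (i : ℤ) (hi : 0 ≤ i) :
    ((u ^ i : Cˣ) : C) ∈ R := by
  obtain ⟨n, rfl⟩ := Int.eq_ofNat_of_zero_le hi
  rw [zpow_natCast, Units.val_pow_eq_pow_val]
  exact R.pow_mem h1 n

lemma zpow_mem' {R : Subring C} (u : Cˣ) (i : ℤ) (h1 : 0 < i → (u : C) ∈ R)
    (h2 : i < 0 → ((u⁻¹ : Cˣ) : C) ∈ R) : ((u ^ i : Cˣ) : C) ∈ R := by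
  rcases lt_trichotomy i 0 with h | h | h
  · have := zpow_mem (R := R) u⁻¹ (h2 h) (-i) (by omega)
    rwa [inv_zpow, zpow_neg, inv_inv] at this
  · subst h
    simp
  · exact zpow_mem u (h1 h) i h.le

/-- the elements `e_t / u^(dg t)` -/
lemma e_mem {R : Subring C} (q : Quad C) (u : Cˣ) (hn : q.n * ((u⁻¹ : Cˣ) : C) ^ 2 ∈ R)
    (hw : q.w * ((u⁻¹ : Cˣ) : C) ^ 5 ∈ R) (t : Fin 4) :
    q.e t * ((u ^ (-dg t) : Cˣ) : C) ∈ R := by
  have key : ∀ m : ℕ, ((u ^ (-(m : ℤ)) : Cˣ) : C) = ((u⁻¹ : Cˣ) : C) ^ m := by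
    intro m
    rw [zpow_neg, zpow_natCast, ← inv_pow, Units.val_pow_eq_pow_val]
  fin_cases t
  · simp [Quad.e, dg]
  · have h := key 2
    have h' : q.e 1 * ((u ^ (-dg 1) : Cˣ) : C) = q.n * ((u⁻¹ : Cˣ) : C) ^ 2 := by
      rw [← h]; rfl
    exact h' ▸ hn
  · have h := key 5
    have h' : q.e 2 * ((u ^ (-dg 2) : Cˣ) : C) = q.w * ((u⁻¹ : Cˣ) : C) ^ 5 := by
      rw [← h]; rfl
    exact h' ▸ hw
  · have h := key 7
    have h' : q.e 3 * ((u ^ (-dg 3) : Cˣ) : C)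
        = (q.n * ((u⁻¹ : Cˣ) : C) ^ 2) * (q.w * ((u⁻¹ : Cˣ) : C) ^ 5) := by
      have : q.e 3 * ((u ^ (-dg 3) : Cˣ) : C) = (q.n * q.w) * ((u⁻¹ : Cˣ) : C) ^ 7 := by
        rw [← h]; rfl
      rw [this]
      ring
    exact h' ▸ R.mul_mem hn hw

end MEM

theorem mem : T_MEM := by
  intro C _ B q hmono hB S hS s hs
  obtain ⟨i, j, t⟩ := s
  have hsub : ∀ r : Fin 3, r ∈ S → B {r} ≤ B S := fun r hr =>
    hmono {r} S (Finset.singleton_nonempty r) (Finset.singleton_subset_iff.mpr hr)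
  have h0 : (0 : Fin 3) ∉ S → 0 ≤ i := fun h => by simpa [expo] using hs 0 h
  have h1 : (1 : Fin 3) ∉ S → 0 ≤ j := fun h => by simpa [expo] using hs 1 h
  have h2 : (2 : Fin 3) ∉ S → 0 ≤ -i - j - dg t := fun h => by simpa [expo] using hs 2 h
  have hYX : ((q.Y * q.X⁻¹ : Cˣ) : C) = (q.Y : C) * ((q.X⁻¹ : Cˣ) : C) := Units.val_mul _ _
  have hXY : ((q.X * q.Y⁻¹ : Cˣ) : C) = (q.X : C) * ((q.Y⁻¹ : Cˣ) : C) := Units.val_mul _ _
  by_cases m2 : (2 : Fin 3) ∈ S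
  · -- monomials in X, Y and e_t
    have he : q.e t ∈ B S := by
      have hn := hsub 2 m2 hB.z.2.2.1
      have hw := hsub 2 m2 hB.z.2.2.2
      fin_cases t
      · exact (B S).one_mem
      · exact hn
      · exact hw
      · exact (B S).mul_mem hn hw
    refine (B S).mul_mem ((B S).mul_mem ?_ ?_) he
    · refine MEM.zpow_mem' q.X i (fun _ => hsub 2 m2 hB.z.1) (fun hi => ?_)
      by_cases m0 : (0 : Fin 3) ∈ S
      · exact hsub 0 m0 hB.x.1
      · exact absurd (h0 m0) (not_le.mpr hi)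
    · refine MEM.zpow_mem' q.Y j (fun _ => hsub 2 m2 hB.z.2.1) (fun hj => ?_)
      by_cases m1 : (1 : Fin 3) ∈ S
      · exact hsub 1 m1 hB.y.1
      · exact absurd (h1 m1) (not_le.mpr hj)
  · have hc := h2 m2
    by_cases m0 : (0 : Fin 3) ∈ S
    · have hmon : q.mon (i, j, t) = (((q.Y * q.X⁻¹) ^ j : Cˣ) : C)
          * (((q.X⁻¹) ^ (-i - j - dg t) : Cˣ) : C) * (q.e t * ((q.X ^ (-dg t) : Cˣ) : C)) := by
        have hu : (q.X ^ i * q.Y ^ j : Cˣ)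
            = (q.Y * q.X⁻¹) ^ j * (q.X⁻¹) ^ (-i - j - dg t) * q.X ^ (-dg t) := by
          rw [mul_zpow, inv_zpow, inv_zpow, ← zpow_neg, ← zpow_neg, mul_assoc, mul_assoc,
            ← zpow_add, ← zpow_add, mul_comm]
          congr 2
          ring
        have hu' := congrArg (fun v : Cˣ => (v : C)) hu
        simp only [Units.val_mul] at hu'
        show ((q.X ^ i : Cˣ) : C) * ((q.Y ^ j : Cˣ) : C) * q.e t = _
        rw [hu']
        ring
      rw [hmon]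
      refine (B S).mul_mem ((B S).mul_mem ?_ ?_) ?_
      · refine MEM.zpow_mem' _ j (fun _ => ?_) (fun hj => ?_)
        · rw [hYX]
          exact hsub 0 m0 hB.x.2.1
        · by_cases m1 : (1 : Fin 3) ∈ S
          · rw [mul_inv_rev, inv_inv, hXY]
            exact hsub 1 m1 hB.y.2.1
          · exact absurd (h1 m1) (not_le.mpr hj)
      · exact MEM.zpow_mem _ (hsub 0 m0 hB.x.1) _ hc
      · exact MEM.e_mem q q.X (hsub 0 m0 hB.x.2.2.1) (hsub 0 m0 hB.x.2.2.2) t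
    · have m1 : (1 : Fin 3) ∈ S := by
        obtain ⟨r, hr⟩ := hS
        fin_cases r
        · exact absurd hr m0
        · exact hr
        · exact absurd hr m2
      have hmon : q.mon (i, j, t) = (((q.X * q.Y⁻¹) ^ i : Cˣ) : C)
          * (((q.Y⁻¹) ^ (-i - j - dg t) : Cˣ) : C) * (q.e t * ((q.Y ^ (-dg t) : Cˣ) : C)) := by
        have hu : (q.X ^ i * q.Y ^ j : Cˣ)
            = (q.X * q.Y⁻¹) ^ i * (q.Y⁻¹) ^ (-i - j - dg t) * q.Y ^ (-dg t) := by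
          rw [mul_zpow, inv_zpow, inv_zpow, ← zpow_neg, ← zpow_neg, mul_assoc, mul_assoc,
            ← zpow_add, ← zpow_add]
          congr 2
          ring
        have hu' := congrArg (fun v : Cˣ => (v : C)) hu
        simp only [Units.val_mul] at hu'
        show ((q.X ^ i : Cˣ) : C) * ((q.Y ^ j : Cˣ) : C) * q.e t = _
        rw [hu']
        ring
      rw [hmon]
      refine (B S).mul_mem ((B S).mul_mem ?_ ?_) ?_
      · exact MEM.zpow_mem _ (by rw [hXY]; exact hsub 1 m1 hB.y.2.1) _ (h0 m0)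
      · exact MEM.zpow_mem _ (hsub 1 m1 hB.y.1) _ hc
      · exact MEM.e_mem q q.Y (hsub 1 m1 hB.y.2.2.1) (hsub 1 m1 hB.y.2.2.2) t

end Pool.Agent.H1.CM
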