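import Pool.Agent.H1.CM.Targets2

namespace Pool.Agent.H1.CM

namespace RINGS

open TrivSqZeroExt

section Abs

variable {k O : Type} [Field k] [CommRing O] [IsLocalRing O] [IsArtinianRing O]

/-- `TrivSqZeroExt` over a local ring is local. -/
lemma tsze_local (M : Type) [AddCommGroup M] [Module O M] [Module Oᵐᵒᵖ M] [IsCentralScalar O M] :
    IsLocalRing (TrivSqZeroExt O M) := by
  refine IsLocalRing.of_isUnit_or_isUnit_one_sub_self fun a => ?_
  rw [isUnit_iff_isUnit_fst, isUnit_iff_isUnit_fst, fst_sub, fst_one]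
  exact IsLocalRing.isUnit_or_isUnit_one_sub_self a.fst

lemma tsze_artinian (M : Type) [AddCommGroup M] [Module O M] [Module Oᵐᵒᵖ M]
    [IsCentralScalar O M] [hM : IsArtinian O M] :
    IsArtinianRing (TrivSqZeroExt O M) := by
  have h : IsArtinian O (TrivSqZeroExt O M) := inferInstanceAs (IsArtinian O (O × M))
  exact isArtinian_of_tower O h

end Abs

/-- The model, from an Artinian local ring `O` of length two with `2 ≠ 0`. -/
theorem main (k O : Type) [Field k] [CommRing O] [IsLocalRing O] [IsArtinianRing O]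
    (hk : (2 : k) = 0) (πO : O →+* k) (hπ : Function.Surjective πO)
    (h4 : ∀ x, πO x = 0 → 2 * x = 0) (h2 : ∀ x, 2 * x = 0 → πO x = 0) :
  ∃ (Λ O E : Type) (_ : CommRing Λ) (_ : CommRing O) (_ : CommRing E)
    (_ : IsLocalRing Λ) (_ : IsLocalRing O) (_ : IsLocalRing E)
    (_ : IsArtinianRing Λ) (_ : IsArtinianRing O) (_ : IsArtinianRing E)
    (πΛ : Λ →+* k) (πO : O →+* k) (πE : E →+* k) (θ₀ θ₂ : Λ →+* O) (χ : Λ →+* E) (e : Λ),
    Function.Surjective πΛ ∧ Function.Surjective πO ∧ Function.Surjective πE ∧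
    πO.comp θ₀ = πΛ ∧ πO.comp θ₂ = πΛ ∧ πE.comp χ = πΛ ∧ πΛ e = 0 ∧ θ₀ e = 0 ∧ θ₂ e = 2 ∧
    (2 : E) = 0 ∧ ∀ v : Λ, θ₀ v = θ₂ v → χ v ≠ 1 - χ e := by
  letI m1 : Module O k := Module.compHom k πO
  letI m2 : Module Oᵐᵒᵖ k := Module.compHom k (πO.fromOpposite fun x y => mul_comm _ _)
  haveI m3 : IsCentralScalar O k := ⟨fun a b => rfl⟩
  have sm : ∀ (a : O) (b : k), a • b = πO a * b := fun a b => rfl
  have smo : ∀ (a : O) (b : k), MulOpposite.op a • b = πO a * b := fun a b => rfl
  haveI : IsArtinian O k := by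
    refine isArtinian_of_surjective (R := O) (M := O) (P := k)
      { toFun := πO, map_add' := map_add πO, map_smul' := fun a b => ?_ } hπ
    rw [smul_eq_mul, map_mul, RingHom.id_apply, sm]
  have key : ∀ x y, πO x = πO y → 2 * x = 2 * y := fun x y h => by
    have := h4 (x - y) (by rw [map_sub, h, sub_self])
    rw [mul_sub] at this
    exact sub_eq_zero.mp this
  let lift : k → O := Function.surjInv hπ
  have hlift : ∀ b, πO (lift b) = b := Function.surjInv_eq hπ
  have four : (2 : O) * 2 = 0 := h4 2 (by rw [map_ofNat]; exact hk)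
  haveI l1 : IsLocalRing (TrivSqZeroExt O k) := tsze_local k
  haveI l2 : IsLocalRing (TrivSqZeroExt k k) := tsze_local k
  haveI a1 : IsArtinianRing (TrivSqZeroExt O k) := tsze_artinian k
  haveI a2 : IsArtinianRing (TrivSqZeroExt k k) := tsze_artinian k
  let θ0 : TrivSqZeroExt O k →+* O := (fstHom O O k).toRingHom
  have hθ0 : ∀ v, θ0 v = v.fst := fun v => rfl
  let θ2 : TrivSqZeroExt O k →+* O :=
    { toFun := fun v => v.fst + 2 * lift v.snd
      map_one' := by
        rw [fst_one, snd_one, h4 _ (hlift 0), add_zero]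
      map_zero' := by
        rw [fst_zero, snd_zero, h4 _ (hlift 0), add_zero]
      map_add' := fun v w => by
        have : 2 * lift (v + w).snd = 2 * (lift v.snd + lift w.snd) := key _ _ (by
          rw [hlift, map_add, hlift, hlift, snd_add])
        rw [this, fst_add]
        ring
      map_mul' := fun v w => by
        have : 2 * lift (v * w).snd = 2 * (v.fst * lift w.snd + w.fst * lift v.snd) :=
          key _ _ (by rw [hlift, map_add, map_mul, map_mul, hlift, hlift, snd_mul, sm, smo])
        rw [this, fst_mul]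
        linear_combination (-(lift v.snd * lift w.snd)) * four }
  have hθ2 : ∀ v, θ2 v = v.fst + 2 * lift v.snd := fun v => rfl
  let χ : TrivSqZeroExt O k →+* TrivSqZeroExt k k :=
    { toFun := fun v => (inl (πO v.fst) + inr v.snd : TrivSqZeroExt k k)
      map_one' := by
        ext <;> simp
      map_zero' := by
        ext <;> simp
      map_add' := fun v w => by
        ext <;> simp
      map_mul' := fun v w => by
        ext
        · simp
        · simp [sm, smo, mul_comm] }
  have hχ : ∀ v, χ v = (inl (πO v.fst) + inr v.snd : TrivSqZeroExt k k) := fun v => rfl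
  let πE : TrivSqZeroExt k k →+* k := (fstHom k k k).toRingHom
  have hπE : ∀ v, πE v = v.fst := fun v => rfl
  refine ⟨TrivSqZeroExt O k, O, TrivSqZeroExt k k, inferInstance, inferInstance, inferInstance,
    l1, inferInstance, l2, a1, inferInstance, a2, πO.comp θ0, πO, πE, θ0, θ2, χ,
    inr 1, ?_, hπ, ?_, rfl, ?_, ?_, ?_, ?_, ?_, ?_, ?_⟩
  · intro b
    obtain ⟨a, ha⟩ := hπ b
    exact ⟨inl a, by rw [RingHom.comp_apply, hθ0, fst_inl, ha]⟩
  · intro b
    exact ⟨inl b, by rw [hπE, fst_inl]⟩
  · ext v
    rw [RingHom.comp_apply, RingHom.comp_apply, hθ0, hθ2, map_add, map_mul, map_ofNat, hk,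
      zero_mul, add_zero]
  · ext v
    rw [RingHom.comp_apply, RingHom.comp_apply, hθ0, hπE, hχ]
    simp
  · rw [RingHom.comp_apply, hθ0, fst_inr, map_zero]
  · rw [hθ0, fst_inr]
  · rw [hθ2, fst_inr, snd_inr, zero_add]
    have := key (lift 1) 1 (by rw [hlift, map_one])
    rw [this, mul_one]
  · have : (2 : TrivSqZeroExt k k) = inl 2 := by
      have h11 : (inl (1 + 1) : TrivSqZeroExt k k) = inl 1 + inl 1 := inl_add _ _ _
      rw [inl_one] at h11
      rw [← one_add_one_eq_two, ← one_add_one_eq_two, h11]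
    rw [this, hk, inl_zero]
  · intro v hv he
    rw [hθ0, hθ2] at hv
    have h0 : 2 * lift v.snd = 0 := by
      have := hv
      exact (add_eq_left.mp this.symm)
    have h1 : v.snd = 0 := by
      have := h2 _ h0
      rwa [hlift] at this
    rw [hχ, hχ, h1] at he
    have := congrArg TrivSqZeroExt.snd he
    simp at this

end RINGS

open RINGS in
theorem rings : T_RINGS := by
  intro k _ _ _
  haveI : Fact (Nat.Prime 2) := ⟨Nat.prime_two⟩
  have hk : (2 : k) = 0 := by exact_mod_cast CharP.cast_eq_zero k 2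
  let W := WittVector 2 k
  let c : W →+* k := WittVector.constantCoeff
  have hc : Function.Surjective c := fun b => ⟨WittVector.teichmuller 2 b, by
    change (WittVector.teichmuller 2 b).coeff 0 = b
    exact WittVector.teichmuller_coeff_zero 2 b⟩
  have hirr : Irreducible (2 : W) := by
    have := WittVector.irreducible 2 (k := k)
    exact_mod_cast this
  have hmax : IsLocalRing.maximalIdeal W = Ideal.span {2} :=
    (IsDiscreteValuationRing.irreducible_iff_uniformizer _).mp hirr
  have hc0 : ∀ w : W, c w = 0 → ∃ w', w = 2 * w' := by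
    intro w hw
    have : w ∈ IsLocalRing.maximalIdeal W := by
      rw [IsLocalRing.mem_maximalIdeal, mem_nonunits_iff]
      intro hu
      have := hu.map c
      rw [hw] at this
      exact not_isUnit_zero this
    rw [hmax, Ideal.mem_span_singleton] at this
    exact this
  let I : Ideal W := Ideal.span {4}
  have hI : ∀ w ∈ I, c w = 0 := by
    intro w hw
    rw [Ideal.mem_span_singleton] at hw
    obtain ⟨w', rfl⟩ := hw
    rw [map_mul, map_ofNat]
    have : (4 : k) = 2 * 2 := by norm_num
    rw [this, hk, zero_mul, zero_mul]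
  let O := W ⧸ I
  haveI : Nontrivial O := Ideal.Quotient.nontrivial_iff.mpr (by
    intro h
    have := hI 1 (by rw [h]; trivial)
    rw [map_one] at this
    exact one_ne_zero this)
  haveI lO : IsLocalRing O :=
    IsLocalRing.of_surjective' (Ideal.Quotient.mk I) Ideal.Quotient.mk_surjective
  haveI aO : IsArtinianRing O := by
    rw [isArtinianRing_iff_isNoetherianRing_krullDimLE_zero]
    refine ⟨inferInstance, Ring.KrullDimLE.mk₀ fun P hP => ?_⟩
    haveI := hP
    have h2P : (Ideal.Quotient.mk I 2) ∈ P := by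
      have : (Ideal.Quotient.mk I 2) * (Ideal.Quotient.mk I 2) ∈ P := by
        rw [← map_mul]
        have h4 : (2 * 2 : W) ∈ I := by
          have : (2 * 2 : W) = 4 := by norm_num
          rw [this]
          exact Ideal.mem_span_singleton_self _
        rw [Ideal.Quotient.eq_zero_iff_mem.mpr h4]
        exact P.zero_mem
      rcases hP.mem_or_mem this with h | h <;> exact h
    have hle : IsLocalRing.maximalIdeal O ≤ P := by
      intro x hx
      obtain ⟨w, rfl⟩ := Ideal.Quotient.mk_surjective x
      have hw : w ∈ IsLocalRing.maximalIdeal W := by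
        rw [IsLocalRing.mem_maximalIdeal, mem_nonunits_iff] at hx ⊢
        exact fun hu => hx (hu.map _)
      rw [hmax, Ideal.mem_span_singleton] at hw
      obtain ⟨w', rfl⟩ := hw
      rw [map_mul]
      exact P.mul_mem_right _ h2P
    have := (IsLocalRing.maximalIdeal.isMaximal O).eq_of_le hP.ne_top hle
    rw [← this]
    exact IsLocalRing.maximalIdeal.isMaximal O
  let πO : O →+* k := Ideal.Quotient.lift I c hI
  have hπO : ∀ w, πO (Ideal.Quotient.mk I w) = c w := fun w => Ideal.Quotient.lift_mk I c hI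
  refine main k O hk πO ?_ ?_ ?_
  · intro b
    obtain ⟨w, hw⟩ := hc b
    exact ⟨Ideal.Quotient.mk I w, by rw [hπO, hw]⟩
  · intro x hx
    obtain ⟨w, rfl⟩ := Ideal.Quotient.mk_surjective x
    rw [hπO] at hx
    obtain ⟨w', rfl⟩ := hc0 w hx
    have h2 : (2 : O) = Ideal.Quotient.mk I 2 := (map_ofNat (Ideal.Quotient.mk I) 2).symm
    rw [h2, ← map_mul, Ideal.Quotient.eq_zero_iff_mem, Ideal.mem_span_singleton]
    exact ⟨w', by ring⟩
  · intro x hx
    obtain ⟨w, rfl⟩ := Ideal.Quotient.mk_surjective x
    have h2 : (2 : O) = Ideal.Quotient.mk I 2 := (map_ofNat (Ideal.Quotient.mk I) 2).symm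
    rw [h2, ← map_mul, Ideal.Quotient.eq_zero_iff_mem, Ideal.mem_span_singleton] at hx
    obtain ⟨w', hw'⟩ := hx
    have : w = 2 * w' := by
      apply mul_left_cancel₀ hirr.ne_zero
      rw [hw']
      ring
    rw [hπO, this, map_mul, map_ofNat, hk, zero_mul]

end Pool.Agent.H1.CM
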